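import Mathlib
import Pool.Agent.Helper3.Count

/-!
# In every even degree at least four a positive proportion of the Salem numbers are Parry numbers

For every `m ≥ 2` the number of Salem numbers of degree `2 m` up to `X` is `O(X^m)`, and at least `c X^m` of
them are Parry numbers.  The Parry numbers counted here have a minimal polynomial
`X^(2m) - c_1 X^(2m-1) - ... - c_(2m-1) X + 1` with small nonnegative middle coefficients in prescribed
residue classes modulo `4` (which make the polynomial Eisenstein after a shift).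
-/

open Polynomial Filter

namespace Pool.Agent.Results.MP_c9fe0d_nt.SalemDensity

/-- A Salem number: a real algebraic integer `β > 1` such that every conjugate of `β` other than `β` has
modulus at most `1`, and at least one conjugate has modulus exactly `1`. -/
def IsSalemNumber (β : ℝ) : Prop :=
  1 < β ∧ IsIntegral ℤ β ∧
    (∀ z : ℂ, aeval z (minpoly ℤ β) = 0 → z ≠ (β : ℂ) → ‖z‖ ≤ 1) ∧
    (∃ z : ℂ, aeval z (minpoly ℤ β) = 0 ∧ ‖z‖ = 1)

/-- The transformation `T_β x = β x - ⌊β x⌋`. -/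
noncomputable def betaMap (β x : ℝ) : ℝ := β * x - ⌊β * x⌋

/-- The digit `t_i = ⌊β T_β^{i-1}(1)⌋` of the greedy expansion of `1` in base `β` (for `i ≥ 1`). -/
noncomputable def digit (β : ℝ) (i : ℕ) : ℤ := ⌊β * (betaMap β)^[i - 1] 1⌋

/-- Parry numbers: the digit sequence `t_1 t_2 t_3 ...` of the greedy expansion of `1` is eventually periodic. -/
def IsParryNumber (β : ℝ) : Prop :=
  ∃ N p : ℕ, 0 < p ∧ ∀ i : ℕ, 1 ≤ i → N ≤ i → digit β (i + p) = digit β i

/-- The set of Salem numbers of degree `d` that are at most `X`. -/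
def salemUpTo (d : ℕ) (X : ℝ) : Set ℝ := {β | IsSalemNumber β ∧ (minpoly ℤ β).natDegree = d ∧ β ≤ X}

lemma parry_of_iterate (B : ℝ) (n : ℕ) (h : (Helper3.T B)^[n+2] 1 = (Helper3.T B)^[1] 1) : IsParryNumber B := by
  have hT : betaMap B = Helper3.T B := rfl
  refine ⟨2, n + 1, by omega, fun i _ hi => ?_⟩
  unfold digit
  rw [hT]
  congr 2
  have e1 : i + (n+1) - 1 = (i - 2) + (n + 2) := by omega
  have e2 : i - 1 = (i - 2) + 1 := by omega
  rw [e1, e2, Function.iterate_add_apply, h, ← Function.iterate_add_apply]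

/-- For every `m ≥ 2` there are constants `c₁, c₂ > 0` such that for all large `X` there are only finitely many
Salem numbers of degree `2 m` up to `X`, their number is at most `c₂ X ^ m`, and at least `c₁ X ^ m` of them
are Parry numbers. -/
theorem result (m : ℕ) (hm : 2 ≤ m) :
    ∃ c₁ c₂ : ℝ, 0 < c₁ ∧ 0 < c₂ ∧ ∀ᶠ X : ℝ in atTop,
      (salemUpTo (2 * m) X).Finite ∧
      ((salemUpTo (2 * m) X).ncard : ℝ) ≤ c₂ * X ^ m ∧
      c₁ * X ^ m ≤ ((salemUpTo (2 * m) X ∩ {β | IsParryNumber β}).ncard : ℝ) := by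
  obtain ⟨M, rfl⟩ : ∃ M, m = M + 1 := ⟨m - 1, by omega⟩
  have hM : 1 ≤ M := by omega
  have hset : ∀ X, salemUpTo (2 * (M+1)) X = Helper3.salemSet (2*M+2) X := fun X => rfl
  refine ⟨(1 / (32 * ((M:ℝ)+1)))^(M+1), (3 * 2^(2*M+2))^(M+1), by positivity, by positivity, ?_⟩
  filter_upwards [eventually_ge_atTop (100 * ((M:ℝ)+1))] with X hX
  have hMr : (1:ℝ) ≤ M := by exact_mod_cast hM
  have hX1 : 1 ≤ X := by nlinarith
  rw [hset]
  have hup := Helper3.salemSet_upper M X hX1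
  refine ⟨hup.1, ?_, ?_⟩
  · refine hup.2.trans (le_of_eq ?_)
    rw [← mul_pow]; ring
  · set K : ℕ := ⌊X / (16 * ((M:ℝ)+1))⌋₊ with hK
    have hpos : (0:ℝ) < 16 * ((M:ℝ)+1) := by positivity
    have hK1 : (K:ℝ) ≤ X / (16 * ((M:ℝ)+1)) := Nat.floor_le (by positivity)
    have hK2 : X / (16 * ((M:ℝ)+1)) < K + 1 := Nat.lt_floor_add_one _
    have hK3 : (K:ℝ) * (16 * ((M:ℝ)+1)) ≤ X := by rwa [le_div_iff₀ hpos] at hK1
    have hKY : (4*K + 8*(M+1)*(K+1) : ℝ) ≤ X := by
      have h0 : (0:ℝ) ≤ K := Nat.cast_nonneg _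
      have h1 : 4 * (K:ℝ) ≤ 2 * ((M:ℝ)+1) * K := by nlinarith
      have h2 : 8 * ((M:ℝ)+1) * ((K:ℝ)+1) = 8 * ((M:ℝ)+1) * K + 8 * ((M:ℝ)+1) := by ring
      rw [h2]
      nlinarith
    have hlow := Helper3.family_lower M K hM X hX1 hKY
    have hsub : Helper3.salemSet (2*M+2) X ∩ {β | (Helper3.T β)^[2*M+2] 1 = (Helper3.T β)^[1] 1} ⊆
        Helper3.salemSet (2*M+2) X ∩ {β | IsParryNumber β} := by
      intro β hβ
      exact ⟨hβ.1, parry_of_iterate β (2*M) hβ.2⟩
    have h3 := Set.ncard_le_ncard hsub (hup.1.subset Set.inter_subset_left)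
    have h4 : ((K:ℝ))^(M+1) ≤ ((Helper3.salemSet (2*M+2) X ∩ {β | IsParryNumber β}).ncard : ℝ) := by
      exact_mod_cast hlow.trans h3
    refine le_trans ?_ h4
    rw [← mul_pow]
    apply pow_le_pow_left₀ (by positivity)
    have h5 : X < (K + 1) * (16 * ((M:ℝ)+1)) := by rwa [div_lt_iff₀ hpos] at hK2
    have h6 : (2:ℝ) ≤ X / (32 * ((M:ℝ)+1)) := by
      rw [le_div_iff₀ (by positivity)]; linarith
    have h7 : X / (16 * ((M:ℝ)+1)) = 2 * (X / (32 * ((M:ℝ)+1))) := by
      field_simp; ring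
    have h8 : 1 / (32 * ((M:ℝ)+1)) * X = X / (32 * ((M:ℝ)+1)) := by ring
    rw [h8]
    linarith

end Pool.Agent.Results.MP_c9fe0d_nt.SalemDensity
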