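import Mathlib
import Pool.Agent.Helper48.SPow.TotalQ
import Pool.Agent.Helper48.SPow.FieldAll
import Pool.Agent.Helper48.SPow.PosG
import Pool.Agent.Helper48.SPow.BoundC

/-!
# 81 per cent of the powers of every Salem number of degree 6 are Parry numbers

Let `β` be a Salem number of degree `d = 2 g + 2` with conjugates `β, 1/β, z_1, ..., z_g` and their complex conjugates.  The minimal polynomial
of `β ^ k` is `(X - β^k) (X - β^{-k}) ∏ (X² - 2 Re(z_i^k) X + 1)`.  For large `k` the beta expansion of `1` in base `β^k` follows a limit system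
which depends only on the numbers `2 Re(z_i^k)`, as long as the orbit of the limit system is finite (`Helper11.SP`).  The numbers `z_i` are
multiplicatively independent, so by Weyl's theorem (uniform in the starting point) the proportion of the exponents `k` with a finite orbit in a long
block is at least the Haar measure of the open set of the points of the torus with a finite orbit.  For `g = 2`, in the coordinates `(a, b)` of
`X⁴ + a X³ + b X² + a X + 1`, the Haar measure has the density `2 / (π² √((b+2-2a)(b+2+2a)(a²-4b+8)))`; its integral over a triangle is at least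
the value given by the inequality between the arithmetic and the geometric mean and Jensen's inequality, and the kernel sums these values over a
subdivision of the polygons of `Helper11.SP.D2`.  For `g = 3` the kernel checks a tree of boxes of triples of traces with a common finite orbit
(`Helper64.SPW.Eight`).  For all `g` there is the open set of parameters for which the limit orbit is `1, 0, 0, ...` (`Helper48.SPow.PosG`).
-/

open Polynomial Filter

namespace Pool.Agent.Results.MP_c9fe0d_nt.SalemPowersAll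

/-- A Salem number: a real algebraic integer `β > 1` such that every conjugate of `β` other than `β` has
modulus at most `1`, and at least one conjugate has modulus exactly `1`. -/
def IsSalemNumber (β : ℝ) : Prop :=
  1 < β ∧ IsIntegral ℤ β ∧
    (∀ z : ℂ, aeval z (minpoly ℤ β) = 0 → z ≠ (β : ℂ) → ‖z‖ ≤ 1) ∧
    (∃ z : ℂ, aeval z (minpoly ℤ β) = 0 ∧ ‖z‖ = 1)

/-- The transformation `T_β x = β x - ⌊β x⌋`. -/
noncomputable def betaMap (β x : ℝ) : ℝ := β * x - ⌊β * x⌋

/-- The digit `t_i = ⌊β T_β^{i-1}(1)⌋` of the greedy expansion of `1` in base `β` (for `i ≥ 1`). -/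
noncomputable def digit (β : ℝ) (i : ℕ) : ℤ := ⌊β * (betaMap β)^[i - 1] 1⌋

/-- Parry numbers: the digit sequence `t_1 t_2 t_3 ...` of the greedy expansion of `1` is eventually periodic. -/
def IsParryNumber (β : ℝ) : Prop :=
  ∃ N p : ℕ, 0 < p ∧ ∀ i : ℕ, 1 ≤ i → N ≤ i → digit β (i + p) = digit β i

/-- Parry numbers whose digit sequence is periodic from the second digit on, with a period of length at most `B`. -/
def ShortParry (B : ℕ) (β : ℝ) : Prop :=
  IsParryNumber β ∧ ∃ p : ℕ, 0 < p ∧ p ≤ B ∧ ∀ i : ℕ, 2 ≤ i → digit β (i + p) = digit β i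

lemma short_of_iterate (B : ℝ) (L n : ℕ) (hn : n + 1 ≤ L) (h : (Helper3.T B)^[n+2] 1 = (Helper3.T B)^[1] 1) :
    ShortParry L B := by
  have hT : betaMap B = Helper3.T B := rfl
  have h1 : ∀ i : ℕ, 2 ≤ i → digit B (i + (n + 1)) = digit B i := by
    intro i hi
    unfold digit
    rw [hT]
    congr 2
    have e1 : i + (n+1) - 1 = (i - 2) + (n + 2) := by omega
    have e2 : i - 1 = (i - 2) + 1 := by omega
    rw [e1, e2, Function.iterate_add_apply, h, ← Function.iterate_add_apply]
  exact ⟨⟨2, n + 1, by omega, fun i _ hi => h1 i hi⟩, n + 1, by omega, hn, h1⟩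

open Classical in
/-- In long blocks of exponents the proportion of the powers with a short period is at least `c`. -/
lemma block (d : ℕ) : ∃ (c : ℝ) (B : ℕ), 0 < c ∧ (d = 6 → 81 / 100 ≤ c ∧ B ≤ 977) ∧ (d = 8 → 1 / 5 ≤ c) ∧
    ∀ β : ℝ, IsSalemNumber β → (minpoly ℤ β).natDegree = d → ∃ N₀ : ℕ, ∀ N, N₀ ≤ N → ∀ M : ℕ,
      c * N ≤ (((Finset.Ioc M (M + N)).filter (fun k : ℕ => ShortParry B (β ^ k))).card : ℝ) := by
  have key : ∀ (c : ℝ) (Q : ℕ → Prop) (B : ℕ), (∀ n, Q n → n + 1 ≤ B) →
      (∀ β : ℝ, Helper3.IsSalem β → (minpoly ℤ β).natDegree = d → ∃ N0 : ℕ, ∀ N, N0 ≤ N → ∀ M : ℕ,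
      c * N ≤ (((Finset.Ioc M (M + N)).filter (fun k : ℕ => Helper48.SPow.FinOrbQ Q (β ^ k))).card : ℝ)) →
      ∀ β : ℝ, IsSalemNumber β → (minpoly ℤ β).natDegree = d → ∃ N₀ : ℕ, ∀ N, N₀ ≤ N → ∀ M : ℕ,
      c * N ≤ (((Finset.Ioc M (M + N)).filter (fun k : ℕ => ShortParry B (β ^ k))).card : ℝ) := by
    intro c Q B hQ h β hβ hd
    obtain ⟨N0, h0⟩ := h β hβ hd
    refine ⟨N0, fun N hN M => (h0 N hN M).trans ?_⟩
    refine Nat.cast_le.2 (Finset.card_le_card fun k hk => ?_)
    rw [Finset.mem_filter] at hk ⊢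
    obtain ⟨h1, n, hn, h2⟩ := hk
    exact ⟨h1, short_of_iterate _ B n (hQ n hn) h2⟩
  by_cases h6 : d = 6
  · subst h6
    refine ⟨81 / 100, 977, by norm_num, fun _ => ⟨le_rfl, le_rfl⟩, fun h => by omega,
      key _ (fun n => n ≤ 976) 977 (fun n hn => by omega) fun β hβ hd => ?_⟩
    obtain ⟨N0, h⟩ := Helper48.SPow.six_densityQ β hβ hd
    refine ⟨N0, fun N hN M => le_trans ?_ (h N hN M)⟩
    have : (0 : ℝ) ≤ N := Nat.cast_nonneg N
    nlinarith
  by_cases h8 : d = 8
  · subst h8
    obtain ⟨B, hB⟩ := Helper48.SPow.eight_densityQ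
    exact ⟨1 / 5, B + 1, by norm_num, fun h => by omega, fun _ => le_rfl,
      key _ (fun n => n ≤ B) (B + 1) (fun n hn => by omega) hB⟩
  by_cases hg : ∃ g : ℕ, 1 ≤ g ∧ d = 2 * g + 2
  · obtain ⟨g, hg, rfl⟩ := hg
    obtain ⟨c, hc, h⟩ := Helper48.SPow.pos_density hg
    exact ⟨c, 2 * g + 1, hc, fun h => absurd h h6, fun h => absurd h h8,
      key _ (fun n => n = 2 * g) (2 * g + 1) (fun n hn => by omega) h⟩
  · refine ⟨1, 0, one_pos, fun h => absurd h h6, fun h => absurd h h8, fun β hβ hd => ?_⟩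
    obtain ⟨g, h1, h2⟩ := Helper48.SPow.salem_degree hβ
    exact absurd ⟨g, h1, hd.symm.trans h2⟩ hg

open Classical in
/-- There are constants `c d > 0` and `B d`, with `c 6 ≥ 81 / 100`, `B 6 ≤ 977` and `c 8 ≥ 1 / 5`, such that for every Salem number `β` of degree
`d` there is `N₀` such that in every block `M < k ≤ M + N` of `N ≥ N₀` consecutive exponents at least `c d * N` of the `k` are such that `β ^ k` is a
Salem number of degree `d` and a Parry number whose digits are periodic from the second one on with a period of length at most `B d`. -/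
theorem result : ∃ (c : ℕ → ℝ) (B : ℕ → ℕ), (∀ d, 0 < c d) ∧ 81 / 100 ≤ c 6 ∧ B 6 ≤ 977 ∧ 1 / 5 ≤ c 8 ∧
    ∀ (d : ℕ) (β : ℝ), IsSalemNumber β → (minpoly ℤ β).natDegree = d →
      ∃ N₀ : ℕ, ∀ N, N₀ ≤ N → ∀ M : ℕ, c d * N ≤
        (((Finset.Ioc M (M + N)).filter (fun k : ℕ => IsSalemNumber (β ^ k) ∧
          (minpoly ℤ (β ^ k)).natDegree = d ∧ ShortParry (B d) (β ^ k))).card : ℝ) := by
  choose c B hc h6 h8 h using block
  refine ⟨c, B, hc, (h6 6 rfl).1, (h6 6 rfl).2, h8 8 rfl, fun d β hβ hd => ?_⟩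
  obtain ⟨N0, h0⟩ := h d β hβ hd
  refine ⟨N0, fun N hN M => (h0 N hN M).trans ?_⟩
  refine Nat.cast_le.2 (Finset.card_le_card fun k hk => ?_)
  rw [Finset.mem_filter] at hk ⊢
  have hk1 : 1 ≤ k := by
    have := (Finset.mem_Ioc.1 hk.1).1
    omega
  exact ⟨hk.1, Helper3.salem_pow hβ hk1, by rw [Helper3.natDegree_pow hβ hk1, hd], hk.2⟩

end Pool.Agent.Results.MP_c9fe0d_nt.SalemPowersAll
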