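import Mathlib
import Pool.Agent.Helper3.Count
import Pool.Agent.Helper11.SP.D2.Total
import Pool.Agent.Helper11.SP.D3.Total

/-!
# At least 98 per cent of the Salem numbers of degree 6 and three quarters of those of degree 8 are Parry numbers

A Salem number of degree `2 g + 2` and of size about `N` has a minimal polynomial `X^(2g+2) + 1 - X H(X)` where `H / N` is close to
`C(X) = ∏ (X² - t_j X + 1)`, the product over the `g` pairs of conjugates on the unit circle.  For large `N` the greedy expansion of `1`
follows the limit system `n_0 = 1`, `n_i = 1 - ⌈S_i⌉`, where `S_i` is the coefficient of `X^i` in `C(X) (n_0 + ... + n_(i-1) X^(i-1))`, and it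
is finite when the orbit of the limit system reaches zero and all coefficients of `C(X) n(X)` lie in `(0, 1)` (or are constant `1`).
Counting minimal polynomials shows that the lower proportion of Parry numbers in degree `2 g + 2` is at least
`vol(U) / vol(all parameters)` for every open set `U` of parameters with finite limit orbit.  For `g = 2` and `g = 3` explicit polygons and
polytopes (3471 and 5796 orbits, checked by the kernel) have relative volume more than `0.98` and `0.75`.
-/

open Polynomial Filter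

namespace Pool.Agent.Results.MP_c9fe0d_nt.SalemProportion

/-- A Salem number: a real algebraic integer `β > 1` such that every conjugate of `β` other than `β` has
modulus at most `1`, and at least one conjugate has modulus exactly `1`. -/
def IsSalemNumber (β : ℝ) : Prop :=
  1 < β ∧ IsIntegral ℤ β ∧
    (∀ z : ℂ, aeval z (minpoly ℤ β) = 0 → z ≠ (β : ℂ) → ‖z‖ ≤ 1) ∧
    (∃ z : ℂ, aeval z (minpoly ℤ β) = 0 ∧ ‖z‖ = 1)

/-- The transformation `T_β x = β x - ⌊β x⌋`. -/
noncomputable def betaMap (β x : ℝ) : ℝ := β * x - ⌊β * x⌋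

/-- The digit `t_i = ⌊β T_β^{i-1}(1)⌋` of the greedy expansion of `1` in base `β` (for `i ≥ 1`). -/
noncomputable def digit (β : ℝ) (i : ℕ) : ℤ := ⌊β * (betaMap β)^[i - 1] 1⌋

/-- Parry numbers: the digit sequence `t_1 t_2 t_3 ...` of the greedy expansion of `1` is eventually periodic. -/
def IsParryNumber (β : ℝ) : Prop :=
  ∃ N p : ℕ, 0 < p ∧ ∀ i : ℕ, 1 ≤ i → N ≤ i → digit β (i + p) = digit β i

/-- The set of Salem numbers of degree `d` that are at most `X`. -/
def salemUpTo (d : ℕ) (X : ℝ) : Set ℝ := {β | IsSalemNumber β ∧ (minpoly ℤ β).natDegree = d ∧ β ≤ X}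

/-- The set of Parry numbers. -/
def parryNumbers : Set ℝ := {β | IsParryNumber β}

lemma parry_of_iterate (B : ℝ) (n : ℕ) (h : (Helper3.T B)^[n+2] 1 = (Helper3.T B)^[1] 1) : IsParryNumber B := by
  have hT : betaMap B = Helper3.T B := rfl
  refine ⟨2, n + 1, by omega, fun i _ hi => ?_⟩
  unfold digit
  rw [hT]
  congr 2
  have e1 : i + (n+1) - 1 = (i - 2) + (n + 2) := by omega
  have e2 : i - 1 = (i - 2) + 1 := by omega
  rw [e1, e2, Function.iterate_add_apply, h, ← Function.iterate_add_apply]

lemma fin_salem (g : ℕ) (X : ℝ) (hX : 1 ≤ X) : (salemUpTo (2 * g + 2) X).Finite :=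
  (Helper3.salemSet_upper g X hX).1

lemma parry_le (g : ℕ) (X : ℝ) (hX : 1 ≤ X) :
    ((Helper11.SP.parrySet g X).ncard : ℝ) ≤ ((salemUpTo (2 * g + 2) X ∩ parryNumbers).ncard : ℝ) := by
  have hsub : Helper11.SP.parrySet g X ⊆ salemUpTo (2 * g + 2) X ∩ parryNumbers := by
    rintro β ⟨h1, n, h2⟩
    exact ⟨h1, parry_of_iterate β n h2⟩
  exact_mod_cast Set.ncard_le_ncard hsub ((fin_salem g X hX).subset Set.inter_subset_left)

/-- For all large `X` there are only finitely many Salem numbers of degree `6` and of degree `8` up to `X`; at least `98` per cent of those of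
degree `6` and at least `75` per cent of those of degree `8` are Parry numbers. -/
theorem result : ∀ᶠ X : ℝ in atTop,
    ((salemUpTo 6 X).Finite ∧
      98 / 100 * ((salemUpTo 6 X).ncard : ℝ) ≤ ((salemUpTo 6 X ∩ parryNumbers).ncard : ℝ)) ∧
    ((salemUpTo 8 X).Finite ∧
      75 / 100 * ((salemUpTo 8 X).ncard : ℝ) ≤ ((salemUpTo 8 X ∩ parryNumbers).ncard : ℝ)) := by
  filter_upwards [eventually_ge_atTop 1, Helper11.SP.D2.prop, Helper11.SP.D3.prop] with X hX h2 h3
  refine ⟨⟨fin_salem 2 X hX, h2.trans (parry_le 2 X hX)⟩, ⟨fin_salem 3 X hX, ?_⟩⟩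
  have e : (75 / 100 : ℝ) = 3 / 4 := by norm_num
  rw [e]
  exact h3.trans (parry_le 3 X hX)

end Pool.Agent.Results.MP_c9fe0d_nt.SalemProportion
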